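import Pool.Agent.W2helper58.PW.Stm
import Pool.Agent.H628R3.RO.M1

/-!
# Pieces RES and BC of project PW: resampling of finitely many bits, and Borel-Cantelli
-/

set_option autoImplicit false

namespace Pool.Agent.W2helper66.PW

open Pool.Agent.NPC Pool.Agent.H620R2.Gauge Pool.Agent.W2helper57.LC MeasureTheory Filter
  Pool.Agent.W2helper58.IR Pool.Agent.W2helper58.PW

/-! ### Local functions -/

/-- `h` depends only on the strings of length less than some bound -/
def Lc (h : Oracle → ℝ) : Prop :=
  ∃ b : ℕ, ∀ A A' : Oracle, (∀ u : List Bool, u.length < b → A u = A' u) → h A = h A'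

theorem finite_lt (b : ℕ) : {u : List Bool | u.length < b}.Finite :=
  (List.finite_length_le Bool b).subset fun u (hu : u.length < b) => (le_of_lt hu : u.length ≤ b)

theorem Lc.meas {h : Oracle → ℝ} (hh : Lc h) : Measurable h := by
  obtain ⟨b, hb⟩ := hh
  intro S _
  refine Pool.Agent.H628R3.RO.measurableSet_of_loc (K := {u : List Bool | u.length < b})
    (finite_lt b) ?_
  intro A A' hA
  rw [Set.mem_preimage, Set.mem_preimage, hb A A' hA]

theorem Lc.bdd {h : Oracle → ℝ} (hh : Lc h) : ∃ C : ℝ, ∀ A, ‖h A‖ ≤ C := by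
  classical
  obtain ⟨b, hb⟩ := hh
  set K := (finite_lt b).toFinset with hK
  have hmem : ∀ u, u ∈ K ↔ u.length < b := by
    intro u
    rw [hK, Set.Finite.mem_toFinset, Set.mem_ofPred_eq]
  set F : (K → Bool) → ℝ := fun η => h (fun u => if hu : u ∈ K then η ⟨u, hu⟩ else false) with hF
  refine ⟨∑ η : K → Bool, ‖F η‖, fun A => ?_⟩
  have e : h A = F (fun u => A u) := by
    rw [hF]
    refine hb _ _ fun u hu => ?_
    rw [dif_pos ((hmem u).2 hu)]
  rw [e]
  exact Finset.single_le_sum (f := fun η : K → Bool => ‖F η‖) (fun η _ => norm_nonneg _)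
    (Finset.mem_univ (fun u : K => A u))

theorem Lc.integrable {h : Oracle → ℝ} (hh : Lc h) : Integrable h ranO := by
  obtain ⟨C, hC⟩ := hh.bdd
  exact Integrable.of_bound hh.meas.aestronglyMeasurable C (Eventually.of_forall hC)

/-! ### Flipping bits -/

/-- flip the bits of `w` -/
def flp (w : Oracle) (B : Oracle) : Oracle := fun u => xor (B u) (w u)

theorem measurable_flp (w : Oracle) : Measurable (flp w) := by
  refine measurable_pi_lambda _ fun u => ?_
  unfold flp
  exact (measurable_of_countable (fun b : Bool => xor b (w u))).comp (measurable_pi_apply u)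

theorem coinM_flip (c : Bool) (t : Set Bool) : coinM ((fun b => xor b c) ⁻¹' t) = coinM t := by
  cases c
  · congr 1
    ext b
    simp
  · unfold coinM
    rw [Measure.add_apply, Measure.add_apply, Measure.smul_apply, Measure.smul_apply,
      Measure.smul_apply, Measure.smul_apply, Measure.dirac_apply, Measure.dirac_apply,
      Measure.dirac_apply, Measure.dirac_apply]
    have e1 : Set.indicator ((fun b => xor b true) ⁻¹' t) (1 : Bool → ENNReal) true =
        Set.indicator t 1 false := by
      by_cases h : false ∈ t <;> simp [Set.indicator, h]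
    have e2 : Set.indicator ((fun b => xor b true) ⁻¹' t) (1 : Bool → ENNReal) false =
        Set.indicator t 1 true := by
      by_cases h : true ∈ t <;> simp [Set.indicator, h]
    rw [e1, e2, add_comm]

theorem map_flp (w : Oracle) : Measure.map (flp w) ranO = ranO := by
  refine Measure.eq_infinitePi (fun _ : List Bool => coinM) ?_
  intro s t ht
  rw [Measure.map_apply (measurable_flp w) (MeasurableSet.pi s.countable_toSet
    (fun i _ => ht i))]
  have e : flp w ⁻¹' (Set.pi (s : Set (List Bool)) t) =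
      Set.pi (s : Set (List Bool)) (fun u => (fun b => xor b (w u)) ⁻¹' (t u)) := by
    ext B
    simp only [Set.mem_preimage, Set.mem_pi, flp]
  rw [e]
  unfold ranO
  rw [Measure.infinitePi_pi (fun _ : List Bool => coinM)
    (fun i _ => measurable_of_countable _ (ht i))]
  exact Finset.prod_congr rfl fun u _ => coinM_flip _ _

theorem integral_flp {h : Oracle → ℝ} (hh : Lc h) (w : Oracle) :
    ∫ B, h (flp w B) ∂ranO = ∫ B, h B ∂ranO := by
  conv_rhs => rw [← map_flp w]
  rw [integral_map (measurable_flp w).aemeasurable]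
  exact hh.meas.aestronglyMeasurable

open Classical in
theorem p_res : P_res := by
  intro X h c hh hc
  have hL : Lc h := hh
  set W : (X → Bool) → Oracle := fun ω u => if hu : u ∈ X then ω ⟨u, hu⟩ else false with hW
  have hflp : ∀ (ω : X → Bool), Lc (fun B => h (flp (W ω) B)) := by
    intro ω
    obtain ⟨b, hb⟩ := hh
    refine ⟨b, fun A A' hA => hb _ _ fun u hu => ?_⟩
    unfold flp
    rw [hA u hu]
  have h1 : ∑ ω : X → Bool, ∫ B, h (flp (W ω) B) ∂ranO = 2 ^ X.card * ∫ B, h B ∂ranO := by
    rw [Finset.sum_congr rfl (fun ω _ => integral_flp hL (W ω)), Finset.sum_const,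
      Finset.card_univ, Fintype.card_fun, Fintype.card_bool, Fintype.card_coe, nsmul_eq_mul]
    push_cast
    rfl
  have h2 : ∑ ω : X → Bool, ∫ B, h (flp (W ω) B) ∂ranO =
      ∫ B, ∑ ω : X → Bool, h (flp (W ω) B) ∂ranO :=
    (integral_finsetSum _ fun ω _ => (hflp ω).integrable).symm
  have h3 : ∀ B : Oracle, ∑ ω : X → Bool, h (flp (W ω) B) ≤ c * 2 ^ X.card := by
    intro B
    refine le_trans (le_of_eq ?_) (hc B)
    have hinv : Function.Involutive (fun (ω : X → Bool) (u : X) => xor (B u) (ω u)) := by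
      intro ω
      funext u
      simp
    refine Fintype.sum_equiv hinv.toPerm _ _ fun ω => ?_
    congr 1
    funext u
    unfold flp put
    rw [hW]
    by_cases hu : u ∈ X
    · simp only [dif_pos hu, Function.Involutive.coe_toPerm]
    · simp only [dif_neg hu, Bool.xor_false]
  have h4 : 2 ^ X.card * ∫ B, h B ∂ranO ≤ c * 2 ^ X.card := by
    rw [← h1, h2]
    calc ∫ B, ∑ ω : X → Bool, h (flp (W ω) B) ∂ranO ≤ ∫ _, c * 2 ^ X.card ∂ranO :=
          integral_mono (integrable_finsetSum _ fun ω _ => (hflp ω).integrable)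
            (integrable_const _) h3
      _ = c * 2 ^ X.card := by
          rw [integral_const]
          simp
  have h5 : (0 : ℝ) < 2 ^ X.card := by positivity
  rw [mul_comm c] at h4
  exact le_of_mul_le_mul_left h4 h5

/-! ### Borel-Cantelli -/

theorem poly_le (q : Polynomial ℕ) : ∃ e : ℕ, ∀ n : ℕ, 2 ≤ n → q.eval n ≤ n ^ e := by
  induction q using Polynomial.induction_on' with
  | add p q hp hq =>
    obtain ⟨e₁, h₁⟩ := hp
    obtain ⟨e₂, h₂⟩ := hq
    refine ⟨max e₁ e₂ + 1, fun n hn => ?_⟩
    rw [Polynomial.eval_add, pow_succ]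
    have a1 := (h₁ n hn).trans (Nat.pow_le_pow_right (by omega) (le_max_left e₁ e₂))
    have a2 := (h₂ n hn).trans (Nat.pow_le_pow_right (by omega) (le_max_right e₁ e₂))
    nlinarith [Nat.zero_le (n ^ max e₁ e₂)]
  | monomial k c =>
    refine ⟨c + k, fun n hn => ?_⟩
    rw [Polynomial.eval_monomial, pow_add]
    refine Nat.mul_le_mul_right _ ?_
    exact (Nat.lt_two_pow_self).le.trans (Nat.pow_le_pow_left hn c)

theorem p_bc : P_bc := by
  intro l h q hl h0 hloc hint
  unfold Negl
  rw [ae_all_iff]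
  intro k
  obtain ⟨e, he⟩ := poly_le q
  obtain ⟨N, hN⟩ := eventually_atTop.1 (hl (k + e + 2))
  set N' := max N 2 with hN'
  set s : ℕ → Set Oracle := fun n => {B | 1 ≤ h (n + N') B * ((n + N' : ℕ) : ℝ) ^ k} with hs
  have hb : ∀ n, ranO.real (s n) ≤ 1 / ((n + N' : ℕ) : ℝ) ^ 2 := by
    intro n
    have hL : Lc (fun B => h (n + N') B * ((n + N' : ℕ) : ℝ) ^ k) := by
      obtain ⟨b, hb⟩ := hloc (n + N')
      exact ⟨b, fun A A' hA => by
        show h (n + N') A * _ = h (n + N') A' * _
        rw [hb A A' hA]⟩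
    have h1 := mul_meas_ge_le_integral_of_nonneg (μ := ranO)
      (f := fun B => h (n + N') B * ((n + N' : ℕ) : ℝ) ^ k)
      (Eventually.of_forall fun B => mul_nonneg (h0 _ B) (by positivity)) hL.integrable 1
    rw [one_mul, integral_mul_const] at h1
    refine h1.trans ?_
    have h2 := hint (n + N')
    have hn1 : N ≤ n + N' := le_trans (le_max_left _ _) (Nat.le_add_left _ _)
    have hn2 : 2 ≤ n + N' := le_trans (le_max_right _ _) (Nat.le_add_left _ _)
    have h3 := hN (n + N') hn1
    have h4 := he (n + N') hn2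
    set m := n + N' with hm
    have hm0 : (0 : ℝ) < (m : ℝ) := by
      have : 0 < m := by omega
      exact_mod_cast this
    have h3' : (m : ℝ) ^ (k + e + 2) ≤ 2 ^ l m := by exact_mod_cast h3
    have h4' : ((q.eval m : ℕ) : ℝ) ≤ (m : ℝ) ^ e := by exact_mod_cast h4
    calc (∫ B, h m B ∂ranO) * (m : ℝ) ^ k
        ≤ ((q.eval m : ℕ) : ℝ) / 2 ^ l m * (m : ℝ) ^ k :=
          mul_le_mul_of_nonneg_right h2 (by positivity)
      _ ≤ (m : ℝ) ^ e / (m : ℝ) ^ (k + e + 2) * (m : ℝ) ^ k := by
          refine mul_le_mul_of_nonneg_right ?_ (by positivity)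
          exact div_le_div₀ (by positivity) h4' (by positivity) h3'
      _ = 1 / (m : ℝ) ^ 2 := by
          rw [pow_add, pow_add]
          field_simp
  have hsum : ∑' n, ranO (s n) ≠ ⊤ := by
    have h1 : Summable (fun n : ℕ => 1 / ((n + N' : ℕ) : ℝ) ^ 2) :=
      (summable_nat_add_iff (f := fun n : ℕ => 1 / (n : ℝ) ^ 2) N').2
        (Real.summable_one_div_nat_pow.2 (by norm_num))
    have h2 : ∀ n, ranO (s n) ≤ ENNReal.ofReal (1 / ((n + N' : ℕ) : ℝ) ^ 2) := by
      intro n
      rw [← ENNReal.ofReal_toReal (measure_ne_top ranO (s n))]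
      exact ENNReal.ofReal_le_ofReal (hb n)
    refine ne_top_of_le_ne_top ?_ (ENNReal.tsum_le_tsum h2)
    exact h1.tsum_ofReal_ne_top
  have hae := ae_eventually_notMem hsum
  filter_upwards [hae] with B hB
  obtain ⟨a, ha⟩ := eventually_atTop.1 hB
  refine eventually_atTop.2 ⟨a + N', fun n hn => ?_⟩
  have h1 := ha (n - N') (by omega)
  simp only [hs, Set.mem_ofPred_eq, not_le] at h1
  rw [Nat.sub_add_cancel (by omega)] at h1
  exact h1.le

end Pool.Agent.W2helper66.PW
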